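import Pool.Agent.W2helper18.KG.Stm

set_option autoImplicit false

open MeasureTheory Finset Filter

namespace Pool.Agent.W2helper75.KG

open Pool.Agent.W2helper18.KG

/-- differences of near numbers are near -/
theorem near_sub {y1 y2 δ : ℝ} {m m' : ℕ} (h : m ≤ m') (h1 : Near y1 y2 δ m)
    (h2 : Near y1 y2 δ m') : Near y1 y2 (2 * δ) (m' - m) := by
  obtain ⟨k1, k2, a1, a2⟩ := h1
  obtain ⟨l1, l2, b1, b2⟩ := h2
  refine ⟨l1 - k1, l2 - k2, ?_, ?_⟩
  · have : ((m' - m : ℕ) : ℝ) * y1 - ((l1 - k1 : ℤ) : ℝ) = ((m' : ℝ) * y1 - l1) - ((m : ℝ) * y1 - k1) := by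
      push_cast [Nat.cast_sub h]; ring
    rw [this]
    calc _ ≤ |(m' : ℝ) * y1 - l1| + |(m : ℝ) * y1 - k1| := abs_sub _ _
      _ < 2 * δ := by linarith
  · have : ((m' - m : ℕ) : ℝ) * y2 - ((l2 - k2 : ℤ) : ℝ) = ((m' : ℝ) * y2 - l2) - ((m : ℝ) * y2 - k2) := by
      push_cast [Nat.cast_sub h]; ring
    rw [this]
    calc _ ≤ |(m' : ℝ) * y2 - l2| + |(m : ℝ) * y2 - k2| := abs_sub _ _
      _ < 2 * δ := by linarith

theorem p_nr1 : P_NR1 := by
  classical
  intro y1 y2 e he hno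
  set S := (Ico 1 e).filter fun m => Near y1 y2 ((e : ℝ) ^ (-(1 / 8) : ℝ)) m with hS
  set g := ⌈(e : ℝ) ^ (1 / 64 : ℝ)⌉₊ with hg
  have he1 : (1 : ℝ) ≤ (e : ℝ) := by exact_mod_cast he
  have he0 : (0 : ℝ) < (e : ℝ) := by linarith
  have hpow : (1 : ℝ) ≤ (e : ℝ) ^ (1 / 64 : ℝ) := Real.one_le_rpow he1 (by norm_num)
  have hg1 : (e : ℝ) ^ (1 / 64 : ℝ) ≤ g := Nat.le_ceil _
  have hg0 : 0 < g := by
    have : (0 : ℝ) < g := by linarith
    exact_mod_cast this
  have key : ∀ m ∈ S, ∀ m' ∈ S, m < m' → g ≤ m' - m := by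
    intro m hm m' hm' hlt
    rw [hS, mem_filter] at hm hm'
    have h1 := near_sub hlt.le hm.2 hm'.2
    have h2 : ¬ ((m' - m : ℕ) : ℝ) < (e : ℝ) ^ (1 / 64 : ℝ) := fun hc =>
      hno (m' - m) (by omega) hc h1
    push Not at h2
    exact Nat.ceil_le.2 h2
  have hinj : Set.InjOn (fun m => m / g) (S : Set ℕ) := by
    have aux : ∀ m ∈ S, ∀ m' ∈ S, m < m' → m / g ≠ m' / g := by
      intro m hm m' hm' hlt heq
      have h1 := key m hm m' hm' hlt
      have h2 : m + g ≤ m' := by omega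
      have h3 : (m + g) / g ≤ m' / g := Nat.div_le_div_right h2
      rw [Nat.add_div_right _ hg0] at h3
      omega
    intro m hm m' hm' heq
    rcases lt_trichotomy m m' with h | h | h
    · exact absurd heq (aux m hm m' hm' h)
    · exact h
    · exact absurd heq.symm (aux m' hm' m hm h)
  have hcard : S.card ≤ e / g + 1 := by
    have h1 : S.card = (S.image fun m => m / g).card := (card_image_of_injOn hinj).symm
    rw [h1]
    have h2 : (S.image fun m => m / g) ⊆ range (e / g + 1) := by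
      intro x hx
      rw [mem_image] at hx
      obtain ⟨m, hm, rfl⟩ := hx
      rw [hS, mem_filter, mem_Ico] at hm
      rw [mem_range]
      have : m / g ≤ e / g := Nat.div_le_div_right hm.1.2.le
      omega
    simpa using card_le_card h2
  have h3 : ((e / g : ℕ) : ℝ) ≤ (e : ℝ) ^ (63 / 64 : ℝ) := by
    calc ((e / g : ℕ) : ℝ) ≤ (e : ℝ) / g := Nat.cast_div_le
      _ ≤ (e : ℝ) / (e : ℝ) ^ (1 / 64 : ℝ) := by
          apply div_le_div_of_nonneg_left he0.le (by linarith) hg1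
      _ = (e : ℝ) ^ (63 / 64 : ℝ) := by
          rw [div_eq_iff (by positivity), ← Real.rpow_add he0]
          norm_num
  have h4 : (1 : ℝ) ≤ (e : ℝ) ^ (63 / 64 : ℝ) := Real.one_le_rpow he1 (by norm_num)
  calc ((S.card : ℕ) : ℝ) ≤ ((e / g + 1 : ℕ) : ℝ) := by exact_mod_cast hcard
    _ = ((e / g : ℕ) : ℝ) + 1 := by push_cast; ring
    _ ≤ 2 * (e : ℝ) ^ (63 / 64 : ℝ) := by linarith

end Pool.Agent.W2helper75.KG
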