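import Pool.Agent.W2helper18.KG.Stm

set_option autoImplicit false

open MeasureTheory Finset Filter

namespace Pool.Agent.W2helper75.KG

open Pool.Agent.W2helper18.KG

/-- the pairs of residues removed for one divisor `e` -/
theorem card_removed (r e v : ℕ) (u1 u2 : ℤ) (hr : 0 < r) (he : 0 < e) (her : e ∣ r)
    (hg : ∀ g : ℕ, g ∣ v → (g : ℤ) ∣ u1 → (g : ℤ) ∣ u2 → g = 1) :
    ((range r ×ˢ range r).filter fun b : ℕ × ℕ =>
      (e : ℤ) ∣ v * b.1 + u1 ∧ (e : ℤ) ∣ v * b.2 + u2).card ≤ (r / e) ^ 2 := by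
  classical
  set S := (range r ×ˢ range r).filter fun b : ℕ × ℕ =>
      (e : ℤ) ∣ v * b.1 + u1 ∧ (e : ℤ) ∣ v * b.2 + u2 with hS
  rcases S.eq_empty_or_nonempty with h0 | ⟨b0, hb0⟩
  · rw [h0]; simp
  have hcop : IsCoprime (e : ℤ) (v : ℤ) := by
    rw [hS, mem_filter] at hb0
    have h1 : Nat.gcd v e = 1 := by
      apply hg _ (Nat.gcd_dvd_left _ _)
      · have h2 : ((Nat.gcd v e : ℕ) : ℤ) ∣ (v : ℤ) * b0.1 :=
          (Int.natCast_dvd_natCast.2 (Nat.gcd_dvd_left v e)).mul_right _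
        have h3 : ((Nat.gcd v e : ℕ) : ℤ) ∣ v * b0.1 + u1 :=
          (Int.natCast_dvd_natCast.2 (Nat.gcd_dvd_right v e)).trans hb0.2.1
        exact (dvd_add_right h2).1 h3
      · have h2 : ((Nat.gcd v e : ℕ) : ℤ) ∣ (v : ℤ) * b0.2 :=
          (Int.natCast_dvd_natCast.2 (Nat.gcd_dvd_left v e)).mul_right _
        have h3 : ((Nat.gcd v e : ℕ) : ℤ) ∣ v * b0.2 + u2 :=
          (Int.natCast_dvd_natCast.2 (Nat.gcd_dvd_right v e)).trans hb0.2.2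
        exact (dvd_add_right h2).1 h3
    rw [Nat.isCoprime_iff_coprime]
    exact (Nat.coprime_comm.1 h1)
  have aux : ∀ (a b : ℕ) (u : ℤ), (e : ℤ) ∣ v * a + u → (e : ℤ) ∣ v * b + u → a / e = b / e →
      a = b := by
    intro a b u h1 h2 h3
    have h4 : (e : ℤ) ∣ v * ((a : ℤ) - b) := by
      have : (v : ℤ) * ((a : ℤ) - b) = (v * a + u) - (v * b + u) := by ring
      rw [this]; exact dvd_sub h1 h2
    have h5 : (e : ℤ) ∣ (a : ℤ) - b := hcop.dvd_of_dvd_mul_left h4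
    have h6 : b ≡ a [MOD e] := (Nat.modEq_iff_dvd).2 h5
    have h7 : b % e = a % e := h6
    rw [← Nat.div_add_mod a e, ← Nat.div_add_mod b e, h3, h7]
  have hinj : Set.InjOn (fun b : ℕ × ℕ => (b.1 / e, b.2 / e)) (S : Set (ℕ × ℕ)) := by
    intro a ha b hb hab
    rw [mem_coe, hS, mem_filter] at ha hb
    simp only [Prod.mk.injEq] at hab
    exact Prod.ext (aux _ _ _ ha.2.1 hb.2.1 hab.1) (aux _ _ _ ha.2.2 hb.2.2 hab.2)
  rw [← card_image_of_injOn hinj]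
  have h2 : (S.image fun b : ℕ × ℕ => (b.1 / e, b.2 / e)) ⊆ range (r / e) ×ˢ range (r / e) := by
    intro x hx
    rw [mem_image] at hx
    obtain ⟨b, hb, rfl⟩ := hx
    rw [hS, mem_filter, mem_product, mem_range, mem_range] at hb
    rw [mem_product, mem_range, mem_range]
    exact ⟨Nat.div_lt_div_of_lt_of_dvd her hb.1.1, Nat.div_lt_div_of_lt_of_dvd her hb.1.2⟩
  calc _ ≤ (range (r / e) ×ˢ range (r / e)).card := card_le_card h2
    _ = (r / e) ^ 2 := by rw [card_product, card_range, sq]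

theorem p_rem : P_REM := by
  classical
  intro P v u1 u2 hP τ hτ
  refine ⟨⌈2 / τ⌉₊ + 1, fun r hr => ?_⟩
  set E1 := ⌈2 / τ⌉₊ + 1 with hE1
  set A : ℕ → Finset (ℕ × ℕ) := fun e => (range r ×ˢ range r).filter fun b : ℕ × ℕ =>
      (P e ∧ e ∣ r) ∧ (e : ℤ) ∣ v e * b.1 + u1 e ∧ (e : ℤ) ∣ v e * b.2 + u2 e with hA
  have hsub : ((range r ×ˢ range r).filter fun b : ℕ × ℕ => ∃ e : ℕ, E1 ≤ e ∧ 0 < e ∧ P e ∧ e ∣ r ∧
      (e : ℤ) ∣ v e * b.1 + u1 e ∧ (e : ℤ) ∣ v e * b.2 + u2 e) ⊆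
      (Ioo ⌈2 / τ⌉₊ (r + 1)).biUnion A := by
    intro b hb
    rw [mem_filter] at hb
    obtain ⟨hb1, e, h1, h2, h3, h4, h5, h6⟩ := hb
    rw [mem_biUnion]
    refine ⟨e, ?_, ?_⟩
    · rw [mem_Ioo]
      have := Nat.le_of_dvd hr h4
      omega
    · rw [hA]
      simp only [mem_filter]
      exact ⟨hb1, ⟨h3, h4⟩, h5, h6⟩
  have hAe : ∀ e ∈ Ioo ⌈2 / τ⌉₊ (r + 1), (((A e).card : ℕ) : ℝ) ≤ (r : ℝ) ^ 2 * ((e : ℝ) ^ 2)⁻¹ := by
    intro e he
    rw [mem_Ioo] at he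
    have he0 : 0 < e := by omega
    have he0' : (0 : ℝ) < e := by exact_mod_cast he0
    by_cases hPe : P e ∧ e ∣ r
    · have h1 : A e = (range r ×ˢ range r).filter fun b : ℕ × ℕ =>
          (e : ℤ) ∣ v e * b.1 + u1 e ∧ (e : ℤ) ∣ v e * b.2 + u2 e := by
        rw [hA]
        apply filter_congr
        intro b _
        simp [hPe]
      have h2 := card_removed r e (v e) (u1 e) (u2 e) hr he0 hPe.2 (hP e hPe.1).2
      rw [h1]
      calc _ ≤ (((r / e) ^ 2 : ℕ) : ℝ) := by exact_mod_cast h2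
        _ = ((r / e : ℕ) : ℝ) ^ 2 := by push_cast; ring
        _ ≤ ((r : ℝ) / e) ^ 2 := by
            apply pow_le_pow_left₀ (by positivity)
            exact Nat.cast_div_le
        _ = (r : ℝ) ^ 2 * ((e : ℝ) ^ 2)⁻¹ := by rw [div_pow, div_eq_mul_inv]
    · have h1 : A e = ∅ := by
        rw [hA]
        apply filter_false_of_mem
        intro b _ hb
        exact hPe hb.1
      rw [h1]
      simp only [card_empty, Nat.cast_zero]
      positivity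
  calc _ ≤ ((((Ioo ⌈2 / τ⌉₊ (r + 1)).biUnion A).card : ℕ) : ℝ) := by
        exact_mod_cast card_le_card hsub
    _ ≤ ((∑ e ∈ Ioo ⌈2 / τ⌉₊ (r + 1), (A e).card : ℕ) : ℝ) := by exact_mod_cast card_biUnion_le
    _ = ∑ e ∈ Ioo ⌈2 / τ⌉₊ (r + 1), (((A e).card : ℕ) : ℝ) := by push_cast; rfl
    _ ≤ ∑ e ∈ Ioo ⌈2 / τ⌉₊ (r + 1), (r : ℝ) ^ 2 * ((e : ℝ) ^ 2)⁻¹ := sum_le_sum hAe
    _ = (r : ℝ) ^ 2 * ∑ e ∈ Ioo ⌈2 / τ⌉₊ (r + 1), ((e : ℝ) ^ 2)⁻¹ := by rw [mul_sum]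
    _ ≤ (r : ℝ) ^ 2 * (2 / ((⌈2 / τ⌉₊ : ℝ) + 1)) := by
        apply mul_le_mul_of_nonneg_left _ (by positivity)
        exact sum_Ioo_inv_sq_le _ _
    _ ≤ (r : ℝ) ^ 2 * τ := by
        apply mul_le_mul_of_nonneg_left _ (by positivity)
        have h1 : 2 / τ ≤ ⌈2 / τ⌉₊ := Nat.le_ceil _
        rw [div_le_iff₀ (by positivity)]
        rw [div_le_iff₀ hτ] at h1
        nlinarith
    _ = τ * (r : ℝ) ^ 2 := by ring

end Pool.Agent.W2helper75.KG
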